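import Pool.Agent.Helper10.AB.GoalsF2

/-! # Project AB (MP_1ef41b_an), packet LIP -/

open MeasureTheory Set Filter Topology
open scoped ContDiff

noncomputable section

namespace Pool.Agent.Helper97.AB

open Pool.Agent.Helper24.AB Pool.Agent.Helper10.AB
open Pool.Agent.Helper15.AB (S_XI S_ATL XiI)

/-- subtract the imaginary parts of the first three coordinates of `v` -/
def hat (v : V4) (P : V4) : V4 :=
  ![P 0 - (v 0).im * Complex.I, P 1 - (v 1).im * Complex.I, P 2 - (v 2).im * Complex.I, P 3]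

lemma rfun_hat (a A : ℝ) (s : ℝ → ℝ) (p : ℂ → ℝ) (v P : V4) :
    rfun a A s p (hat v P) = rfun a A s p P := by
  simp [rfun, ypf, ymf, xp, xm, x0, hat]

lemma hat_sub (v P P' : V4) : hat v P' - hat v P = P' - P := by
  funext i
  fin_cases i <;> simp [hat]

lemma hat_three (v P : V4) : hat v P 3 = P 3 := rfl

lemma hat_im (P : V4) (i : Fin 4) (hi : i ≠ 3) : (hat P P i).im = 0 := by
  fin_cases i
  · simp [hat]
  · simp [hat]
  · simp [hat]
  · exact absurd rfl hi

/-- the compact set of coordinates -/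
def QQ (a T : ℝ) : Set ((Fin 4 → ℝ) × (Fin 4 → ℝ)) :=
  {q | (∑ i, q.1 i ^ 2) ≤ a ^ 2 ∧ (∀ i, i ≠ 3 → q.2 i = 0) ∧ |q.2 3| ≤ T}

lemma QQ_abs {a T : ℝ} (ha : 0 ≤ a) {q : (Fin 4 → ℝ) × (Fin 4 → ℝ)} (hq : q ∈ QQ a T) (i : Fin 4) :
    |q.1 i| ≤ a := by
  have h1 : q.1 i ^ 2 ≤ ∑ j, q.1 j ^ 2 :=
    Finset.single_le_sum (f := fun j => q.1 j ^ 2) (fun j _ => sq_nonneg _) (Finset.mem_univ i)
  exact abs_le_of_sq_le_sq (h1.trans hq.1) ha

lemma QQ_compact {a T : ℝ} (ha : 0 ≤ a) : IsCompact (QQ a T) := by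
  refine Metric.isCompact_of_isClosed_isBounded ?_ ?_
  · have h1 : IsClosed {q : (Fin 4 → ℝ) × (Fin 4 → ℝ) | (∑ i, q.1 i ^ 2) ≤ a ^ 2} :=
      isClosed_le (by fun_prop) continuous_const
    have h2 : IsClosed {q : (Fin 4 → ℝ) × (Fin 4 → ℝ) | ∀ i, i ≠ 3 → q.2 i = 0} := by
      have : {q : (Fin 4 → ℝ) × (Fin 4 → ℝ) | ∀ i, i ≠ 3 → q.2 i = 0} =
          ⋂ i : Fin 4, ⋂ _ : i ≠ 3, {q | q.2 i = 0} := by
        ext q
        simp
      rw [this]
      exact isClosed_iInter fun i => isClosed_iInter fun _ =>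
        isClosed_eq (by fun_prop) continuous_const
    have h3 : IsClosed {q : (Fin 4 → ℝ) × (Fin 4 → ℝ) | |q.2 3| ≤ T} :=
      isClosed_le (by fun_prop) continuous_const
    exact h1.inter (h2.inter h3)
  · refine (Metric.isBounded_closedBall (x := (0 : (Fin 4 → ℝ) × (Fin 4 → ℝ)))
      (r := max a T)).subset ?_
    intro q hq
    rw [Metric.mem_closedBall, dist_zero_right, Prod.norm_def]
    refine max_le ?_ ?_
    · rw [pi_norm_le_iff_of_nonneg (le_max_of_le_left ha)]
      intro i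
      exact (QQ_abs ha hq i).trans (le_max_left _ _)
    · rw [pi_norm_le_iff_of_nonneg (le_max_of_le_left ha)]
      intro i
      by_cases hi : i = 3
      · rw [hi]
        exact hq.2.2.trans (le_max_right _ _)
      · rw [hq.2.1 i hi, norm_zero]
        exact le_max_of_le_left ha

/-- PACKET LIP. -/
theorem lip (h : S_XI) : S_LIP := by
  intro a A δ₀ ρ₀ s p B hD T hT
  obtain ⟨x1, x2, x3, x4, x5, x6, x7, -⟩ := h a A s p hD.prof hD.pot.smooth
  have ha := hD.prof.a_pos
  have ha2 := hD.prof.a_le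
  set r := rfun a A s p with hr
  set U0 : Set V4 := {P | |(P 3).re| < 3 * a / 2} with hU0
  have hU0o : IsOpen U0 := isOpen_lt (by fun_prop) continuous_const
  -- smoothness of `r`
  have hrs : ContDiffOn ℝ ∞ r U0 := by
    have e : ∀ P, r P = (∑ i, (XiI a A s p P).1 i ^ 2) - a ^ 2 := by
      intro P
      rw [← x6, x4]
    have e2 : r = fun P => (∑ i, (XiI a A s p P).1 i ^ 2) - a ^ 2 := funext e
    rw [e2]
    refine ContDiffOn.sub (ContDiffOn.sum fun i _ => ContDiffOn.pow ?_ 2) contDiffOn_const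
    have h1 : ContDiffOn ℝ ∞ (fun P => (XiI a A s p P).1) U0 := x2.fst
    exact contDiffOn_pi.1 h1 i
  have hrd : ∀ P ∈ U0, DifferentiableAt ℝ r P := fun P hP =>
    (hrs.differentiableOn (by simp)).differentiableAt (hU0o.mem_nhds hP)
  have hrc : ContinuousOn (fderiv ℝ r) U0 := hrs.continuousOn_fderiv_of_isOpen hU0o (by simp)
  -- the compact sets
  set K0 : Set V4 := Xi a A s p '' QQ a T with hK0
  have hK0c : IsCompact K0 := by
    refine (QQ_compact ha.le).image_of_continuousOn (x1.continuousOn.mono ?_)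
    intro q hq
    have := QQ_abs ha.le hq 3
    show |q.1 3| < 3 * a / 2
    linarith
  have hK0a : ∀ P ∈ K0, |(P 3).re| ≤ a := by
    rintro P ⟨q, hq, rfl⟩
    rw [x5]
    exact QQ_abs ha.le hq 3
  set K1 : Set V4 := Metric.cthickening (a / 4) K0 with hK1
  have hK1c : IsCompact K1 := hK0c.cthickening
  have hsub : ∀ P P' : V4, ‖P' - P‖ ≤ a / 4 → |(P 3).re| ≤ a → |(P' 3).re| ≤ 5 * a / 4 := by
    intro P P' h1 h2
    have h3 : |(P' 3).re - (P 3).re| ≤ a / 4 := by
      rw [← Complex.sub_re]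
      exact (Complex.abs_re_le_norm _).trans ((norm_le_pi_norm (P' - P) 3).trans h1)
    have h4 : |(P' 3).re| ≤ |(P' 3).re - (P 3).re| + |(P 3).re| := by
      have := abs_add_le ((P' 3).re - (P 3).re) (P 3).re
      rwa [sub_add_cancel] at this
    linarith
  have hK1U : K1 ⊆ U0 := by
    intro P' hP'
    rw [hK1, hK0c.cthickening_eq_biUnion_closedBall (by linarith)] at hP'
    simp only [mem_iUnion] at hP'
    obtain ⟨P, hP, hPP⟩ := hP'
    rw [Metric.mem_closedBall, dist_eq_norm] at hPP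
    have := hsub P P' hPP (hK0a P hP)
    show |(P' 3).re| < 3 * a / 2
    linarith
  obtain ⟨L, hL⟩ := hK1c.exists_bound_of_continuousOn (hrc.mono hK1U)
  set c : ℝ := 1 / (2 * |L| + 2) with hc
  have hc0 : 0 < c := by positivity
  have hc2 : c ≤ 1 / 2 := by
    rw [hc]
    apply one_div_le_one_div_of_le (by norm_num)
    have := abs_nonneg L
    linarith
  have hcL : |L| * c ≤ 1 / 2 := by
    rw [hc, mul_one_div, div_le_iff₀ (by positivity)]
    have := abs_nonneg L
    linarith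
  refine ⟨c, hc0, by linarith, ?_⟩
  intro P hP hPT
  have hrneg : r P < 0 := hP.2
  have hrP : r P = (∑ i, (XiI a A s p P).1 i ^ 2) - a ^ 2 := by rw [← x6, x4]
  have hrge : - a ^ 2 ≤ r P := by
    have : 0 ≤ ∑ i, (XiI a A s p P).1 i ^ 2 := Finset.sum_nonneg fun i _ => sq_nonneg _
    rw [hrP]; linarith
  have hrabs : |r P| = - r P := abs_of_neg hrneg
  refine ⟨by rw [hrabs]; linarith, by rw [hrabs]; nlinarith, ?_⟩
  intro P' hP'
  -- the points with imaginary parts removed
  have hhK : hat P P ∈ K0 := by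
    refine ⟨XiI a A s p (hat P P), ⟨?_, ?_, ?_⟩, x4 _⟩
    · have h1 : r (hat P P) = (∑ i, (XiI a A s p (hat P P)).1 i ^ 2) - a ^ 2 := by rw [← x6, x4]
      have h2 : r (hat P P) = r P := rfun_hat a A s p P P
      linarith
    · intro i hi
      exact hat_im P i hi
    · exact hPT
  have hn : ‖hat P P' - hat P P‖ ≤ c * |r P| := by
    rw [hat_sub, pi_norm_le_iff_of_nonneg (by positivity)]
    exact hP'
  have hn2 : c * |r P| ≤ a / 4 := by
    rw [hrabs]
    nlinarith
  have hconv : Convex ℝ (Metric.closedBall (hat P P) (a / 4)) := convex_closedBall _ _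
  have hball : Metric.closedBall (hat P P) (a / 4) ⊆ K1 :=
    Metric.closedBall_subset_cthickening hhK _
  have hm1 : hat P P ∈ Metric.closedBall (hat P P) (a / 4) :=
    Metric.mem_closedBall_self (by linarith)
  have hm2 : hat P P' ∈ Metric.closedBall (hat P P) (a / 4) := by
    rw [Metric.mem_closedBall, dist_eq_norm]
    exact hn.trans hn2
  have hmv := hconv.norm_image_sub_le_of_norm_fderiv_le (𝕜 := ℝ) (f := r) (C := |L|)
    (fun x hx => hrd x (hK1U (hball hx)))
    (fun x hx => (hL x (hball hx)).trans (le_abs_self L)) hm1 hm2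
  have h5 : |r P' - r P| ≤ |r P| / 2 := by
    have e1 : r (hat P P') = r P' := rfun_hat a A s p P P'
    have e2 : r (hat P P) = r P := rfun_hat a A s p P P
    rw [e1, e2, Real.norm_eq_abs] at hmv
    calc |r P' - r P| ≤ |L| * ‖hat P P' - hat P P‖ := hmv
      _ ≤ |L| * (c * |r P|) := mul_le_mul_of_nonneg_left hn (abs_nonneg _)
      _ = (|L| * c) * |r P| := by ring
      _ ≤ 1 / 2 * |r P| := mul_le_mul_of_nonneg_right hcL (abs_nonneg _)
      _ = |r P| / 2 := by ring
  have h6 : r P' < 0 := by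
    rw [hrabs] at h5
    have := (abs_le.1 h5).2
    linarith
  have h7 : |(P' 3).re| ≤ 5 * a / 4 := by
    have h8 := hsub (hat P P) (hat P P') (hn.trans hn2) (hK0a _ hhK)
    exact h8
  refine ⟨⟨by linarith, h6⟩, ?_⟩
  have h9 : |(P' 3).im - (P 3).im| ≤ a / 4 := by
    rw [← Complex.sub_im]
    exact (Complex.abs_im_le_norm _).trans ((hP' 3).trans hn2)
  have h10 : |(P' 3).im| ≤ |(P' 3).im - (P 3).im| + |(P 3).im| := by
    have := abs_add_le ((P' 3).im - (P 3).im) (P 3).im
    rwa [sub_add_cancel] at this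
  linarith

end Pool.Agent.Helper97.AB
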